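import Pool.Agent.helper83.SB.Spec

set_option autoImplicit false

open scoped Pointwise ContDiff
open MeasureTheory Set Filter Topology

namespace Pool.Agent.helper83.SB

open Pool.Agent.helper83.SC

lemma PRJ_var {n : ℕ} {K : Set (E n)} (hc : Convex ℝ K) {z x : E n} (hx : x ∈ K)
    (h : dist z x = Metric.infDist z K) : ∀ y ∈ K, inner ℝ (z - x) (y - x) ≤ 0 := by
  rw [← norm_eq_iInf_iff_real_inner_le_zero hc hx, ← dist_eq_norm, h, Metric.infDist_eq_iInf]
  simp only [dist_eq_norm]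

lemma PRJ_lip {n : ℕ} {z z' x x' : E n} (h : inner ℝ (z - x) (x' - x) ≤ 0)
    (h' : inner ℝ (z' - x') (x - x') ≤ 0) : ‖x - x'‖ ≤ ‖z - z'‖ := by
  have e : inner ℝ (z - z') (x - x') - ‖x - x'‖ ^ 2 =
      -(inner ℝ (z - x) (x' - x) + inner ℝ (z' - x') (x - x')) := by
    rw [← real_inner_self_eq_norm_sq]
    simp only [inner_sub_left, inner_sub_right]
    ring
  have h1 : ‖x - x'‖ ^ 2 ≤ inner ℝ (z - z') (x - x') := by linarith
  have h2 : inner ℝ (z - z') (x - x') ≤ ‖z - z'‖ * ‖x - x'‖ := real_inner_le_norm _ _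
  rcases (norm_nonneg (x - x')).eq_or_lt with h0 | h0
  · rw [← h0]; exact norm_nonneg _
  · nlinarith

theorem PRJ_of : PRJ_stmt := by
  intro n K hK
  obtain ⟨hcomp, hconv, hne⟩ := hK
  have hex : ∀ z : E n, ∃ x ∈ K, dist z x = Metric.infDist z K := fun z => by
    obtain ⟨x, hx, h⟩ := hcomp.exists_infDist_eq_dist hne z
    exact ⟨x, hx, h.symm⟩
  have h1 : ∀ z, nst K z ∈ K ∧ dist z (nst K z) = Metric.infDist z K := fun z => by
    have e : nst K z = (hex z).choose := by unfold nst; rw [dif_pos (hex z)]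
    rw [e]
    exact (hex z).choose_spec
  have h2 : ∀ z, ∀ y ∈ K, inner ℝ (z - nst K z) (y - nst K z) ≤ 0 := fun z =>
    PRJ_var hconv (h1 z).1 (h1 z).2
  have h3 : ∀ z x, x ∈ K → dist z x = Metric.infDist z K → x = nst K z := fun z x hx h => by
    have a := PRJ_var hconv hx h (nst K z) (h1 z).1
    have b := h2 z x hx
    have c := PRJ_lip a b
    rw [sub_self, norm_zero] at c
    exact sub_eq_zero.mp (norm_le_zero_iff.mp c)
  refine ⟨h1, h2, h3, ?_⟩
  have hl : LipschitzWith 1 (nst K) := LipschitzWith.of_dist_le_mul fun z z' => by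
    rw [dist_eq_norm, dist_eq_norm, NNReal.coe_one, one_mul]
    exact PRJ_lip (h2 z _ (h1 z').1) (h2 z' _ (h1 z).1)
  exact hl.continuous

end Pool.Agent.helper83.SB
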